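import Pool.Agent.Helper76.FT.GoalsC

/-!
# FT-CONTS: joint continuity in the space variable and the class on a fixed strip
-/

set_option autoImplicit false

namespace Pool.Agent.Helper93.FT

open Complex Set Filter Topology Pool.Agent.Helper76.FT

theorem isOpen_Str (ρ : ℝ) : IsOpen (Str ρ) :=
  isOpen_lt (continuous_abs.comp Complex.continuous_im) continuous_const

theorem ft_conts (hReg : GReg) (hU : GUniqT) (hC : GComp) (hTL : GTL) : GContS := by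
  intro S hS
  obtain ⟨d1, hd1, hU⟩ := hU S hS
  obtain ⟨d2, hd2, hC⟩ := hC S hS
  obtain ⟨-, -, -, -, ⟨M, hM⟩, -⟩ := hReg S hS
  have hr := hS.hr
  refine ⟨min d1 d2, lt_min hd1 hd2, ?_⟩
  intro δ ρ h B w hδ hρ hh hT hlow
  have hδ1 : δ ≤ d1 := hδ.trans (min_le_left _ _)
  have hδ2 : δ ≤ d2 := hδ.trans (min_le_right _ _)
  have h0 : (0:ℝ) ∈ Icc (0:ℝ) 1 := ⟨le_rfl, zero_le_one⟩
  -- bound
  have hM0 : 0 ≤ M := by
    have h1 : ((0:ℝ), (0:ℝ)) ∈ S.Reg 0 := by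
      constructor
      · have := hS.Vmono S.a ⟨le_rfl, (hS.ha.trans hS.hb).le⟩ 0 ⟨hS.ha.le, hS.hb.le⟩ hS.ha 0 0 h0
        rw [hS.Vzero 0 0 h0] at this
        exact this.le
      · have := hS.Vmono 0 ⟨hS.ha.le, hS.hb.le⟩ S.b ⟨(hS.ha.trans hS.hb).le, le_rfl⟩ hS.hb 0 0 h0
        rw [hS.Vzero 0 0 h0] at this
        exact this.le
    exact (abs_nonneg _).trans (hM 0 h0 _ h1)
  have hbd : ∀ c ∈ B, ∀ z ∈ Str ρ, ‖w c z 0‖ ≤ M + S.r := by
    intro c hc z hz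
    obtain ⟨y, hy, -, h2⟩ := (hT c hc).nb z hz 0 h0
    have h3 : ‖w c z 0‖ ≤ ‖w c z 0 - (y.2 : ℂ)‖ + ‖(y.2 : ℂ)‖ := by
      simpa using norm_add_le (w c z 0 - (y.2 : ℂ)) (y.2 : ℂ)
    have h4 : ‖(y.2 : ℂ)‖ ≤ M := by
      rw [Complex.norm_real]
      exact hM 0 h0 y hy
    have h5 : ‖w c z 0 - (y.2 : ℂ)‖ < S.r := h2
    linarith
  rintro ⟨z, c⟩ ⟨hz, hc⟩
  change z ∈ Str ρ at hz
  change c ∈ B at hc
  change Tendsto (fun q : ℂ × ℂ => w q.2 q.1 0) (𝓝[Str ρ ×ˢ B] (z, c)) (𝓝 (w c z 0))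
  apply tendsto_of_subseq_tendsto
  intro ns hns
  have hev : ∀ᶠ k in atTop, ns k ∈ Str ρ ×ˢ B :=
    hns.eventually (eventually_mem_nhdsWithin)
  obtain ⟨N, hN⟩ := eventually_atTop.1 hev
  have hlim : Tendsto ns atTop (𝓝 (z, c)) := hns.mono_right nhdsWithin_le_nhds
  have hlimN : Tendsto (fun k => ns (k + N)) atTop (𝓝 (z, c)) :=
    hlim.comp (tendsto_add_atTop_nat N)
  have hmem : ∀ k, ns (k + N) ∈ Str ρ ×ˢ B := fun k => hN _ (Nat.le_add_left _ _)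
  obtain ⟨w', ρ', φ, hφ, hT', hunif, -⟩ := hC δ h (fun _ => ρ) (fun k => w (ns (k + N)).2)
    (fun k => (ns (k + N)).2) c hδ2 hh (fun k => hT _ (hmem k).2)
    (fun k => hlow _ (hmem k).2) (((continuous_snd.tendsto _).comp hlimN))
  have hww : ∀ x : ℝ, w' (x : ℂ) 0 = w c (x : ℂ) 0 := fun x =>
    hU δ ρ' ρ w' (w c) c hδ1 hT' (hT c hc) x 0 h0
  refine ⟨fun n => φ n + N, ?_⟩
  rw [Metric.tendsto_atTop]
  intro ε hε
  set r2 : ℝ := (|z.im| + ρ) / 2 with hr2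
  have hz' : |z.im| < ρ := hz
  have hr2a : 0 < r2 := by
    have := abs_nonneg z.im
    simp only [hr2]; linarith
  have hr2b : r2 < ρ := by simp only [hr2]; linarith
  have hr2c : |z.im| < r2 := by simp only [hr2]; linarith
  obtain ⟨η, hη, hTL'⟩ := hTL ρ r2 (2 * (M + S.r)) (ε / 2) hr2a hr2b (by linarith) (by linarith)
  -- eventually uniformly small on the reals
  have he1 : ∀ᶠ k in atTop, ∀ x : ℝ, ‖w (ns (φ k + N)).2 (x : ℂ) 0 - w c (x : ℂ) 0‖ ≤ η := by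
    have := (Metric.tendstoUniformlyOn_iff.1 hunif) η hη
    filter_upwards [this] with k hk x
    have h1 := hk (x, 0) ⟨mem_univ _, h0⟩
    simp only [dist_eq_norm] at h1
    rw [hww x] at h1
    rw [norm_sub_rev]
    exact h1.le
  have hlimφ : Tendsto (fun k => (ns (φ k + N)).1) atTop (𝓝 z) := by
    have h1 : Tendsto (fun k => ns (φ k + N)) atTop (𝓝 (z, c)) := hlimN.comp hφ.tendsto_atTop
    exact (continuous_fst.tendsto _).comp h1
  have he2 : ∀ᶠ k in atTop, (ns (φ k + N)).1 ∈ Str r2 :=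
    hlimφ.eventually ((isOpen_Str r2).mem_nhds hr2c)
  have hcont : ContinuousAt (fun z' => w c z' 0) z :=
    (((hT c hc).sh.hol 0 h0).differentiableAt ((isOpen_Str ρ).mem_nhds hz)).continuousAt
  have he3 : ∀ᶠ k in atTop, dist (w c (ns (φ k + N)).1 0) (w c z 0) < ε / 2 :=
    (hcont.tendsto.comp hlimφ).eventually (Metric.ball_mem_nhds _ (by linarith))
  obtain ⟨K, hK⟩ := eventually_atTop.1 (he1.and (he2.and he3))
  refine ⟨K, fun k hk => ?_⟩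
  obtain ⟨h1, h2, h3⟩ := hK k hk
  have hk2 := (hmem (φ k)).2
  have h4 := hTL' (fun z' => w (ns (φ k + N)).2 z' 0 - w c z' 0)
    (((hT _ hk2).sh.hol 0 h0).sub ((hT c hc).sh.hol 0 h0))
    (fun z' hz' => by
      have a1 := hbd _ hk2 z' hz'
      have a2 := hbd c hc z' hz'
      calc ‖w (ns (φ k + N)).2 z' 0 - w c z' 0‖
          ≤ ‖w (ns (φ k + N)).2 z' 0‖ + ‖w c z' 0‖ := norm_sub_le _ _
        _ ≤ 2 * (M + S.r) := by linarith)
    h1 _ h2
  calc dist (w (ns (φ k + N)).2 (ns (φ k + N)).1 0) (w c z 0)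
      ≤ dist (w (ns (φ k + N)).2 (ns (φ k + N)).1 0) (w c (ns (φ k + N)).1 0)
        + dist (w c (ns (φ k + N)).1 0) (w c z 0) := dist_triangle _ _ _
    _ < ε / 2 + ε / 2 := by
        rw [dist_eq_norm]
        exact add_lt_add_of_le_of_lt h4 h3
    _ = ε := by ring

end Pool.Agent.Helper93.FT
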